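import Pool.Agent.Lib.MP_72e2e6_nt.W2.A.Cnt
import Pool.Agent.Lib.MP_72e2e6_nt.W2.A.Cos
import Pool.Agent.Lib.MP_72e2e6_nt.W2.A.Der
import Pool.Agent.Lib.MP_72e2e6_nt.W2.A.DuK
import Pool.Agent.Lib.MP_72e2e6_nt.W2.A.Dual
import Pool.Agent.Lib.MP_72e2e6_nt.W2.A.EqA
import Pool.Agent.Lib.MP_72e2e6_nt.W2.A.EqM
import Pool.Agent.Lib.MP_72e2e6_nt.W2.A.EqN
import Pool.Agent.Lib.MP_72e2e6_nt.W2.A.Fix
import Pool.Agent.Lib.MP_72e2e6_nt.W2.A.Lin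
import Pool.Agent.Lib.MP_72e2e6_nt.W2.A.ThA
import Pool.Agent.Lib.MP_72e2e6_nt.W2.A.Uni
import Pool.Agent.Lib.MP_72e2e6_nt.W2.A.Vdc
import Pool.Agent.Lib.MP_72e2e6_nt.W2.A.Zet
import Pool.Agent.Lib.MP_72e2e6_nt.W2.B.Ah
import Pool.Agent.Lib.MP_72e2e6_nt.W2.B.Has
import Pool.Agent.Lib.MP_72e2e6_nt.W2.B.Omi
import Pool.Agent.Lib.MP_72e2e6_nt.W2.B.Sep
import Pool.Agent.Lib.MP_72e2e6_nt.W2.B.Twb
import Pool.Agent.Lib.MP_72e2e6_nt.W2.B.Twt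
import Pool.Agent.Lib.MP_72e2e6_nt.W2.B.Uc
import Pool.Agent.Lib.MP_72e2e6_nt.W2.C.Av
import Pool.Agent.Lib.MP_72e2e6_nt.W2.C.Cst
import Pool.Agent.Lib.MP_72e2e6_nt.W2.C.Dat
import Pool.Agent.Lib.MP_72e2e6_nt.W2.C.Dgr
import Pool.Agent.Lib.MP_72e2e6_nt.W2.C.Drg
import Pool.Agent.Lib.MP_72e2e6_nt.W2.C.Eps
import Pool.Agent.Lib.MP_72e2e6_nt.W2.C.Fin2
import Pool.Agent.Lib.MP_72e2e6_nt.W2.C.Fr
import Pool.Agent.Lib.MP_72e2e6_nt.W2.C.FrG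
import Pool.Agent.Lib.MP_72e2e6_nt.W2.C.Lc1
import Pool.Agent.Lib.MP_72e2e6_nt.W2.C.Lc2
import Pool.Agent.Lib.MP_72e2e6_nt.W2.C.LfI
import Pool.Agent.Lib.MP_72e2e6_nt.W2.C.LfP
import Pool.Agent.Lib.MP_72e2e6_nt.W2.C.Lw
import Pool.Agent.Lib.MP_72e2e6_nt.W2.C.Nr
import Pool.Agent.Lib.MP_72e2e6_nt.W2.C.PfI
import Pool.Agent.Lib.MP_72e2e6_nt.W2.C.PfP
import Pool.Agent.Lib.MP_72e2e6_nt.W2.C.Res
import Pool.Agent.Lib.MP_72e2e6_nt.W2.C.Tls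
import Pool.Agent.Lib.MP_72e2e6_nt.W2.C.Zor
import Pool.Agent.Lib.MP_72e2e6_nt.W2.D.AdF
import Pool.Agent.Lib.MP_72e2e6_nt.W2.D.Dif
import Pool.Agent.Lib.MP_72e2e6_nt.W2.D.E2
import Pool.Agent.Lib.MP_72e2e6_nt.W2.D.Exc
import Pool.Agent.Lib.MP_72e2e6_nt.W2.D.Ext
import Pool.Agent.Lib.MP_72e2e6_nt.W2.D.FS
import Pool.Agent.Lib.MP_72e2e6_nt.W2.D.FV
import Pool.Agent.Lib.MP_72e2e6_nt.W2.D.FVh
import Pool.Agent.Lib.MP_72e2e6_nt.W2.D.FVn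
import Pool.Agent.Lib.MP_72e2e6_nt.W2.D.Fac
import Pool.Agent.Lib.MP_72e2e6_nt.W2.D.Fco
import Pool.Agent.Lib.MP_72e2e6_nt.W2.D.Inf
import Pool.Agent.Lib.MP_72e2e6_nt.W2.D.IsF
import Pool.Agent.Lib.MP_72e2e6_nt.W2.D.Kpt
import Pool.Agent.Lib.MP_72e2e6_nt.W2.D.Map
import Pool.Agent.Lib.MP_72e2e6_nt.W2.D.Nrf
import Pool.Agent.Lib.MP_72e2e6_nt.W2.D.Nz
import Pool.Agent.Lib.MP_72e2e6_nt.W2.D.Psi
import Pool.Agent.Lib.MP_72e2e6_nt.W2.D.Pts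
import Pool.Agent.Lib.MP_72e2e6_nt.W2.D.Rid
import Pool.Agent.Lib.MP_72e2e6_nt.W2.D.Slc
import Pool.Agent.Lib.MP_72e2e6_nt.W2.D.Tom
import Pool.Agent.Lib.MP_72e2e6_nt.W2.D.Tq
import Pool.Agent.Lib.MP_72e2e6_nt.W2.D.Tws
import Pool.Agent.Lib.MP_72e2e6_nt.W2.D.VS
import Pool.Agent.Lib.MP_72e2e6_nt.W2.D.Vdp
import Pool.Agent.Lib.MP_72e2e6_nt.W2.D.Vsu
import Pool.Agent.Lib.MP_72e2e6_nt.W2.D.Vun
import Pool.Agent.Lib.MP_72e2e6_nt.W2.D.WAd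
import Pool.Agent.Lib.MP_72e2e6_nt.W2.D.WF
import Pool.Agent.Lib.MP_72e2e6_nt.W2.D.WRa
import Pool.Agent.Lib.MP_72e2e6_nt.W2.D.Wkr
import Pool.Agent.Lib.MP_72e2e6_nt.W2.D.Wmp
import Pool.Agent.Lib.MP_72e2e6_nt.W2.D.Wt
import Pool.Agent.Lib.MP_72e2e6_nt.W2.D.Wtc
import Pool.Agent.Lib.MP_72e2e6_nt.W2.D.Wu1
import Pool.Agent.Lib.MP_72e2e6_nt.W2.D.Wun
import Pool.Agent.Lib.MP_72e2e6_nt.W2.E.Ad1
import Pool.Agent.Lib.MP_72e2e6_nt.W2.E.Cov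
import Pool.Agent.Lib.MP_72e2e6_nt.W2.E.Cyc
import Pool.Agent.Lib.MP_72e2e6_nt.W2.E.Dpp
import Pool.Agent.Lib.MP_72e2e6_nt.W2.E.Dsc
import Pool.Agent.Lib.MP_72e2e6_nt.W2.E.Fib
import Pool.Agent.Lib.MP_72e2e6_nt.W2.E.Fr1
import Pool.Agent.Lib.MP_72e2e6_nt.W2.E.Fsh
import Pool.Agent.Lib.MP_72e2e6_nt.W2.E.Hdb
import Pool.Agent.Lib.MP_72e2e6_nt.W2.E.Hgt
import Pool.Agent.Lib.MP_72e2e6_nt.W2.E.Ids
import Pool.Agent.Lib.MP_72e2e6_nt.W2.E.Inv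
import Pool.Agent.Lib.MP_72e2e6_nt.W2.E.Itg
import Pool.Agent.Lib.MP_72e2e6_nt.W2.E.Man
import Pool.Agent.Lib.MP_72e2e6_nt.W2.E.Nf
import Pool.Agent.Lib.MP_72e2e6_nt.W2.E.One
import Pool.Agent.Lib.MP_72e2e6_nt.W2.E.Shg
import Pool.Agent.Lib.MP_72e2e6_nt.W2.E.T3
import Pool.Agent.Lib.MP_72e2e6_nt.W2.G.Asr
import Pool.Agent.Lib.MP_72e2e6_nt.W2.G.Ax1
import Pool.Agent.Lib.MP_72e2e6_nt.W2.G.AxB
import Pool.Agent.Lib.MP_72e2e6_nt.W2.G.AxF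
import Pool.Agent.Lib.MP_72e2e6_nt.W2.G.AxL
import Pool.Agent.Lib.MP_72e2e6_nt.W2.G.AxZ
import Pool.Agent.Lib.MP_72e2e6_nt.W2.G.Axm
import Pool.Agent.Lib.MP_72e2e6_nt.W2.G.Goo
import Pool.Agent.Lib.MP_72e2e6_nt.W2.G.Hlo
import Pool.Agent.Lib.MP_72e2e6_nt.W2.G.Off
import Pool.Agent.Lib.MP_72e2e6_nt.W2.G.Pfs
import Pool.Agent.Lib.MP_72e2e6_nt.W2.G.Uex
import Pool.Agent.Lib.MP_72e2e6_nt.W2.R.Adm
import Pool.Agent.Lib.MP_72e2e6_nt.W2.R.CGe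
import Pool.Agent.Lib.MP_72e2e6_nt.W2.R.Cfr
import Pool.Agent.Lib.MP_72e2e6_nt.W2.R.Dec
import Pool.Agent.Lib.MP_72e2e6_nt.W2.R.Dpl
import Pool.Agent.Lib.MP_72e2e6_nt.W2.R.Exp
import Pool.Agent.Lib.MP_72e2e6_nt.W2.R.FCn
import Pool.Agent.Lib.MP_72e2e6_nt.W2.R.Gst
import Pool.Agent.Lib.MP_72e2e6_nt.W2.R.H90
import Pool.Agent.Lib.MP_72e2e6_nt.W2.R.Inj
import Pool.Agent.Lib.MP_72e2e6_nt.W2.R.Loc
import Pool.Agent.Lib.MP_72e2e6_nt.W2.R.LvA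
import Pool.Agent.Lib.MP_72e2e6_nt.W2.R.LvP
import Pool.Agent.Lib.MP_72e2e6_nt.W2.R.LvU
import Pool.Agent.Lib.MP_72e2e6_nt.W2.R.Mu
import Pool.Agent.Lib.MP_72e2e6_nt.W2.R.Onr
import Pool.Agent.Lib.MP_72e2e6_nt.W2.R.Or1
import Pool.Agent.Lib.MP_72e2e6_nt.W2.R.Or2
import Pool.Agent.Lib.MP_72e2e6_nt.W2.R.Rec
import Pool.Agent.Lib.MP_72e2e6_nt.W2.R.Rgo
import Pool.Agent.Lib.MP_72e2e6_nt.W2.R.Rho
import Pool.Agent.Lib.MP_72e2e6_nt.W2.R.Sqe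
import Pool.Agent.Lib.MP_72e2e6_nt.W2.R.TS
import Pool.Agent.Lib.MP_72e2e6_nt.W2.R.Tb
import Pool.Agent.Lib.MP_72e2e6_nt.W2.R.TbG
import Pool.Agent.Lib.MP_72e2e6_nt.W2.R.Val
import Pool.Agent.Lib.MP_72e2e6_nt.W2.R.Zex

/-!
# MP_72e2e6_nt, theorem T3: assembly of the modules
-/

namespace Pool.Agent.MP72W

theorem aAv : S_Av :=
  tAv

theorem aLfP : S_LfP :=
  tLfP

theorem aLc1 : S_Lc1 :=
  tLc1

theorem aLc2 : S_Lc2 :=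
  tLc2 aLc1

theorem aCst : S_Cst :=
  tCst

theorem aNr : S_Nr :=
  tNr aLc1 aLc2 aCst

theorem aH90 : S_H90 :=
  tH90

theorem aAd1 : S_Ad1 :=
  tAd1 aAv aLfP aLc1 aLc2 aNr aH90

theorem aAsr : S_Asr :=
  tAsr

theorem aUc : S_Uc :=
  tUc

theorem aAh : S_Ah :=
  tAh aUc

theorem aHas : S_Has :=
  tHas

theorem aSep : S_Sep :=
  tSep aAh aHas

theorem aTwb : S_Twb :=
  tTwb

theorem aRes : S_Res :=
  tRes aHas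

theorem aTwt : S_Twt :=
  tTwt aTwb

theorem aOmi : S_Omi :=
  tOmi aAh aHas aTwb aTwt

theorem aHlo : S_Hlo :=
  tHlo aHas aTwb aOmi aRes aAsr

theorem aRgo : S_Rgo :=
  tRgo aTwb aRes aAsr aHlo

theorem aExp : S_Exp :=
  tExp

theorem aOnr : S_Onr :=
  tOnr aLfP aLc1 aLc2 aCst aNr aTwb aRes aAsr

theorem aPts : S_Pts :=
  tPts

theorem aMap : S_Map :=
  tMap

theorem aFV : S_FV :=
  tFV aPts aMap

theorem aFVh : S_FVh :=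
  tFVh aPts aMap aFV

theorem aFVn : S_FVn :=
  tFVn aPts aMap aFV aFVh

theorem aRid : S_Rid :=
  tRid aPts

theorem aFco : S_Fco :=
  tFco aPts aRid

theorem aSlc : S_Slc :=
  tSlc aPts aRid

theorem aExc : S_Exc :=
  tExc aPts aSlc

theorem aNz : S_Nz :=
  tNz aPts

theorem aWRa : S_WRa :=
  tWRa aPts aFco aExc aNz

theorem aWmp : S_Wmp :=
  tWmp aPts aMap

theorem aInf : S_Inf :=
  tInf aPts aMap

theorem aE2 : S_E2 :=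
  tE2 aPts aFco aExc aNz

theorem aWAd : S_WAd :=
  tWAd aPts aNz aE2

theorem aWF : S_WF :=
  tWF aPts aMap aFV aFVh aFVn aNz

theorem aWkr : S_Wkr :=
  tWkr aPts aMap aFV aFVh aFVn aWF

theorem aExt : S_Ext :=
  tExt

theorem aWt : S_Wt :=
  tWt aPts aMap aFVn aWAd aWkr aExt aInf

theorem aWtc : S_Wtc :=
  tWtc aPts aMap aFVn aWRa aWmp aInf

theorem aDif : S_Dif :=
  tDif aPts

theorem aWu1 : S_Wu1 :=
  tWu1 aLc1 aLc2 aPts aMap aFV aFVn aNz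

theorem aWun : S_Wun :=
  tWun aLc1 aLc2 aCst aNr aPts aMap aFVn aNz aWAd aDif aWu1

theorem aKpt : S_Kpt :=
  tKpt aLc1 aPts aMap

theorem aAdF : S_AdF :=
  tAdF aAv aLfP aLc1 aLc2 aNr aAsr aSep aRgo aExp aOnr aPts aMap aFVn aWRa aWmp aInf aWt aWtc aWun
    aKpt

theorem aLfI : S_LfI :=
  tLfI

theorem aFr : S_Fr :=
  tFr aLc1 aLc2 aCst aNr aHas

theorem aEps : S_Eps :=
  tEps aLc1 aHas aFr

theorem aLvU : S_LvU :=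
  tLvU aLc1 aLc2 aNr aH90

theorem aLvA : S_LvA :=
  tLvA aLc1 aLc2

theorem aFrG : S_FrG :=
  tFrG aCst

theorem aTb : S_Tb :=
  tTb

theorem aTbG : S_TbG :=
  tTbG

theorem aGst : S_Gst :=
  tGst aCst aFrG

theorem aCGe : S_CGe :=
  tCGe aCst aFrG aTb aTbG aGst

theorem aTS : S_TS :=
  tTS aH90 aTb aTbG aCGe

theorem aRho : S_Rho :=
  tRho aFrG aH90 aTS

theorem aVal : S_Val :=
  tVal aLc1 aLc2 aNr aFrG aRes aRho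

theorem aMu : S_Mu :=
  tMu aRgo aExp

theorem aSqe : S_Sqe :=
  tSqe aAv

theorem aAdm : S_Adm :=
  tAdm aAv aLfP aLfI aLc1 aLc2 aNr aFr aHas aEps aHlo aH90 aLvU aLvA aVal aRgo aExp aMu aSqe

theorem aPfP : S_PfP :=
  tPfP

theorem aPfI : S_PfI :=
  tPfI

theorem aFin2 : S_Fin2 :=
  tFin2

theorem aDgr : S_Dgr :=
  tDgr aFin2

theorem aDrg : S_Drg :=
  tDrg

theorem aOff : S_Off :=
  tOff aLc1 aHas aEps aDgr aDrg aFin2 aLfP aLfI aAsr aHlo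

theorem aAx1 : S_Ax1 :=
  tAx1 aLc1 aEps aLfP aPfP aPfI aFin2 aHlo aOff aAsr

theorem aAxB : S_AxB :=
  tAxB

theorem aAxF : S_AxF :=
  tAxF

theorem aAxL : S_AxL :=
  tAxL aLc1 aLc2 aLfP aLfI aHas aRes aEps aAxF aAxB

theorem aAxZ : S_AxZ :=
  tAxZ aLc2 aHas aTwb aOmi aAsr

theorem aAxm : S_Axm :=
  tAxm aLc1 aLc2 aLfP aLfI aHas aTwb aRes aDgr aDrg aAsr aHlo aOff aAxL aAxZ

theorem aCfr : S_Cfr :=
  tCfr aCst aFrG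

theorem aFix : S_Fix :=
  tFix

theorem aUni : S_Uni :=
  tUni aFix

theorem aLin : S_Lin :=
  tLin aUni

theorem aEqA : S_EqA :=
  tEqA aLin

theorem aVdc : S_Vdc :=
  tVdc

theorem aDer : S_Der :=
  tDer aUni aLin

theorem aZet : S_Zet :=
  tZet aUni aDer

theorem aEqM : S_EqM :=
  tEqM aVdc aZet

theorem aEqN : S_EqN :=
  tEqN aLin aEqA aEqM

theorem aCnt : S_Cnt :=
  tCnt aLin aEqN

theorem aCos : S_Cos :=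
  tCos aLin

theorem aCov : S_Cov :=
  tCov

theorem aShg : S_Shg :=
  tShg

theorem aCyc : S_Cyc :=
  tCyc aShg

theorem aZor : S_Zor :=
  tZor

theorem aTls : S_Tls :=
  tTls aLfP aLfI aLc1 aPfP aPfI aDrg

theorem aLw : S_Lw :=
  tLw aLfP aLfI aLc1 aHas aSep aEps aZor aDgr aTls aFr

theorem aDat : S_Dat :=
  tDat aAv aLw

theorem aPfs : S_Pfs :=
  tPfs aFin2 aPfP aPfI aAsr

theorem aUex : S_Uex :=
  tUex aPfs aHlo aOff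

theorem aGoo : S_Goo :=
  tGoo aDgr aAsr aTls aLfI aHlo aOff aUex aAx1 aAxm

theorem aLoc : S_Loc :=
  tLoc aUni aSep aRgo aHlo

theorem aDec : S_Dec :=
  tDec aLin aGoo aLoc

theorem aDpl : S_Dpl :=
  tDpl aLfP aLfI aLc1 aLc2 aCst aFrG aCfr

theorem aDpp : S_Dpp :=
  tDpp aLfP aLfI aLc1 aDgr aDrg aPfs

theorem aVsu : S_Vsu :=
  tVsu aPts aMap aFV aFVh aFVn

theorem aDsc : S_Dsc :=
  tDsc aSep aRes aPts aMap aFV aFVh aFVn aVsu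

theorem aDual : S_Dual :=
  tDual

theorem aDuK : S_DuK :=
  tDuK aLin aDual

theorem aZex : S_Zex :=
  tZex aUni aLin

theorem aRec : S_Rec :=
  tRec aLfP aLfI aLc1 aLc2 aCst aFrG aGst aRho aLvU aVal aCfr aDpl

theorem aLvP : S_LvP :=
  tLvP aAv aLfP aLc1 aLc2 aFr aRgo aExp aOnr

theorem aOr1 : S_Or1 :=
  tOr1 aLfP aLfI aLc1 aLc2 aLvU aLvA aVal aRec aRgo aExp aMu aLvP aDec aGoo

theorem aOr2 : S_Or2 :=
  tOr2 aUni aLfP aLfI aLc1 aLc2 aLvU aLvA aVal aRec aRgo aExp aMu aLvP aLoc aGoo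

theorem aInj : S_Inj :=
  tInj aLfP aLfI aLc1 aLc2 aNr aLvU aLvA aVal aRgo aExp aMu aAdm

theorem aFCn : S_FCn :=
  tFCn aLfP aLfI aLc1 aLc2 aLvU aLvA aVal aRgo aExp aMu aDuK aGoo aZex aDec aOr1 aOr2 aInj

theorem aTq : S_Tq :=
  tTq aPts aMap aFV aFVh aFVn

theorem aTom : S_Tom :=
  tTom aTwb aPts aMap aFV aFVn aTq aAsr

theorem aIsF : S_IsF :=
  tIsF aLfP aLfI aLc1 aLc2 aSep aRes aH90 aLvU aLvA aHlo aRgo aExp aPts aMap aFVn aWRa aWmp aInf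
    aWt aWtc aTq aKpt

theorem aFS : S_FS :=
  tFS aSep aPts aMap aFVn aInf aWt aTq aTom aAdF aIsF aFCn

theorem aNrf : S_Nrf :=
  tNrf aAv aLfP aLc1 aLc2 aNr aFr aHas aSep aRes aDrg aAsr aPfs aFin2 aOmi

theorem aFac : S_Fac :=
  tFac aHlo aRgo aOnr aNrf

theorem aIds : S_Ids :=
  tIds aDgr aAsr aPfs aHlo aOff aUex

theorem aFib : S_Fib :=
  tFib aFin2 aPfP aPfI aDgr aAsr aOff aIds

theorem aFr1 : S_Fr1 :=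
  tFr1 aSep aRes aTwb aAsr aPts aMap aFV aFVh aFVn aWt aAdF aShg aAd1

theorem aFsh : S_Fsh :=
  tFsh aPts aMap aShg aCyc

theorem aHdb : S_Hdb :=
  tHdb aPts aMap

theorem aHgt : S_Hgt :=
  tHgt aHdb

theorem aInv : S_Inv :=
  tInv

theorem aItg : S_Itg :=
  tItg aAsr

theorem aTws : S_Tws :=
  tTws aPts aMap aFV aFVh

theorem aPsi : S_Psi :=
  tPsi aHas aTwb aOmi aRes aAsr aRgo aPts aMap aFV aFVh aFVn aVsu aTq aTom aTws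

theorem aThA : S_ThA :=
  tThA aLin aCnt

theorem aVdp : S_Vdp :=
  tVdp aLc1 aPts aMap aFV aFVh aFVn aVsu

theorem aVun : S_Vun :=
  tVun aLc1 aLc2 aNr aPts aMap aFV aVsu

theorem aVS : S_VS :=
  tVS aAv aLfP aLfI aLc1 aLc2 aNr aSep aRes aAsr aHlo aRgo aOnr aPts aMap aFV aFVn aVsu aTq aTom
    aVdp aVun aKpt aFac aGoo aCos

theorem aOne : S_One :=
  tOne aLfP aLfI aFr aHlo aRgo aPts aMap aFVn aTq aFS aVS aDsc aFsh aHgt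

theorem aMan : S_Man :=
  tMan aHlo aGoo aPsi aThA aIds aDpp aOne

theorem aNf : S_Nf :=
  tNf aCov aInv

theorem aT3 : S_T3 :=
  tT3 aFin2 aDat aInv aNf aItg aFr1 aAsr aMan aFib

end Pool.Agent.MP72W
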