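import Mathlib

/-!
# MP_72e2e6_nt, theorem T3: the statement

`W` is a Weierstrass curve over a field `K`, `K^s = SeparableClosure K`. `InSha W z` says that `z` is
a continuous (locally constant) crossed homomorphism `Gal(K^s/K) → W(K^s)` whose restriction to the
absolute Galois group of the completion of `K` at every nontrivial absolute value is trivial;
`ShaTwoFin W` says that the `2`-primary component of the Tate-Shafarevich group (the classes of these
crossed homomorphisms which are killed by a power of `2`) is finite. `twist W D` is the quadratic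
twist of `W` (in characteristic two) by the Artin-Schreier extension `θ ^ 2 + θ = D`. `Tw PP e n` is
the set of the functions `D ∈ F(t)` whose poles are in `PP` (of order at most `e P` at `P`) and at
infinity (of order at most `n`).
-/

namespace Pool.Agent.MP72W

open Polynomial WeierstrassCurve

open scoped Classical in
/-- The homomorphism on points induced by a homomorphism of fields over `S`, `S` a field over which
the curve is defined. -/
noncomputable def pmap {K S L M : Type} [Field K] (W : WeierstrassCurve K) [Field S] [Field L]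
    [Field M] [Algebra K S] [Algebra K L] [Algebra K M] [Algebra S L] [Algebra S M]
    [IsScalarTower K S L] [IsScalarTower K S M] (f : L →ₐ[S] M) :
    (W⁄L).toAffine.Point →+ (W⁄M).toAffine.Point :=
  Affine.Point.map f

section

variable {K : Type} [Field K] (W : WeierstrassCurve K)

open scoped Classical in
/-- `z` is a locally constant crossed homomorphism. -/
structure IsCoc (z : Gal(SeparableClosure K/K) → (W⁄(SeparableClosure K)).toAffine.Point) :
    Prop where
  loc : IsLocallyConstant z
  mul : ∀ σ τ, z (σ * τ) = z σ + pmap W (σ : SeparableClosure K →ₐ[K] SeparableClosure K) (z τ)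

open scoped Classical in
/-- `z` is trivial over the extension `M` of `K`: for every embedding `ι` of `K^s` in `M^s` there is
a point `Q` over `M^s` with `ι (z σ) = τ Q - Q` whenever `σ` is the restriction of
`τ ∈ Gal(M^s/M)` to `K^s`. -/
def LocTriv (z : Gal(SeparableClosure K/K) → (W⁄(SeparableClosure K)).toAffine.Point)
    (M : Type) [Field M] [Algebra K M] : Prop :=
  ∀ ι : SeparableClosure K →ₐ[K] SeparableClosure M,
    ∃ Q : (W⁄(SeparableClosure M)).toAffine.Point,
      ∀ (σ : Gal(SeparableClosure K/K)) (τ : Gal(SeparableClosure M/M)),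
        (∀ x, τ (ι x) = ι (σ x)) →
          pmap W ι (z σ) = pmap W (τ : SeparableClosure M →ₐ[M] SeparableClosure M) Q - Q

/-- `z` defines an element of the Tate-Shafarevich group. -/
def InSha (z : Gal(SeparableClosure K/K) → (W⁄(SeparableClosure K)).toAffine.Point) : Prop :=
  IsCoc W z ∧ ∀ v : AbsoluteValue K ℝ, v.IsNontrivial → LocTriv W z v.Completion

open scoped Classical in
/-- The `2`-primary component of the Tate-Shafarevich group is finite. -/
def ShaTwoFin : Prop :=
  ∃ T : Set (Gal(SeparableClosure K/K) → (W⁄(SeparableClosure K)).toAffine.Point),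
    T.Finite ∧ ∀ z, InSha W z →
      (∃ (n : ℕ) (P : (W⁄(SeparableClosure K)).toAffine.Point), ∀ σ, 2 ^ n • z σ =
        pmap W (σ : SeparableClosure K →ₐ[K] SeparableClosure K) P - P) →
      ∃ y ∈ T, ∃ P : (W⁄(SeparableClosure K)).toAffine.Point, ∀ σ, z σ - y σ =
        pmap W (σ : SeparableClosure K →ₐ[K] SeparableClosure K) P - P

/-- The quadratic twist in characteristic two by the extension `θ ^ 2 + θ = D`. -/
def twist (D : K) : WeierstrassCurve K :=
  ⟨W.a₁, W.a₂ + D * W.a₁ ^ 2, W.a₃, W.a₄, W.a₆ + D * W.a₃ ^ 2⟩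

end

/-- The functions with poles of order at most `e P` at the `P ∈ PP` and at most `n` at infinity. -/
def Tw {F : Type} [Field F] (PP : Finset F[X]) (e : F[X] → ℕ) (n : ℕ) : Set (RatFunc F) :=
  {D | ∃ g : F[X], g.natDegree ≤ n + ∑ P ∈ PP, e P * P.natDegree ∧
    D = algebraMap F[X] (RatFunc F) g / algebraMap F[X] (RatFunc F) (∏ P ∈ PP, P ^ e P)}

/-- THEOREM T3. -/
def T3 : Prop :=
  ∀ (F : Type) [Field F] [Finite F] [CharP F 2] (E : WeierstrassCurve (RatFunc F)),
    E.Δ ≠ 0 → E.a₁ ≠ 0 →
    ∀ PP : Finset F[X], (∀ P ∈ PP, P.Monic ∧ Irreducible P) →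
    (∀ P : F[X], P.Monic → Irreducible P → P ∉ PP →
      ¬ P ∣ E.a₁.denom ∧ ¬ P ∣ E.a₂.denom ∧ ¬ P ∣ E.a₃.denom ∧ ¬ P ∣ E.a₄.denom ∧
        ¬ P ∣ E.a₆.denom ∧ ¬ P ∣ E.a₁.num ∧ ¬ P ∣ E.Δ.num) →
    ∀ ε : ℝ, 0 < ε → ∃ e₀ : ℕ, ∀ (e : F[X] → ℕ) (n : ℕ), (∀ P ∈ PP, e₀ ≤ e P) → e₀ ≤ n →
      (1 - ε) * ((Tw PP e n).ncard : ℝ) ≤
        ({D ∈ Tw PP e n | Finite (twist E D).toAffine.Point ∧ ShaTwoFin (twist E D)}.ncard : ℝ)

end Pool.Agent.MP72W
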